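import Pool.Agent.H247.SD.Stm

/-!
# Project SD (helper247), leaf EX: expansivity from the increment inequality
-/

set_option autoImplicit false
set_option linter.unusedSectionVars false

open scoped Manifold ContDiff Topology
open Filter Set Metric

universe u

namespace Pool.Agent.H370.SD

section gen

variable {X : Type*} [MetricSpace X] {E : Type*} [NormedAddCommGroup E] [NormedSpace ℝ E]

/-- the form on the difference of two points -/
noncomputable def qf (e : X → E) (B : X → E →L[ℝ] E →L[ℝ] ℝ) (x y : X) : ℝ := B x (e y - e x) (e y - e x)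

/-- the increment inequality -/
def Inc (G : X → X) (e : X → E) (B : X → E →L[ℝ] E →L[ℝ] ℝ) (c : ℝ) (x y : X) : Prop :=
  c * ‖e y - e x‖ ^ 2 ≤ qf e B (G x) (G y) - qf e B x y

theorem exists_bd [CompactSpace X] (B : X → E →L[ℝ] E →L[ℝ] ℝ) (hB : Continuous B) :
    ∃ C : ℝ, ∀ x, ‖B x‖ ≤ C := by
  have hBn : Continuous fun x => ‖B x‖ :=
    (continuous_norm (E := E →L[ℝ] E →L[ℝ] ℝ)).comp hB
  obtain ⟨C, hC⟩ := (isCompact_range hBn).bddAbove
  exact ⟨C, fun x => hC ⟨x, rfl⟩⟩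

theorem exists_unif (G : X → X) (e : X → E) (B : X → E →L[ℝ] E →L[ℝ] ℝ) (K : Set X)
    (hK : IsCompact K)
    (h : ∀ x₀ ∈ K, ∃ W ∈ 𝓝 x₀, ∃ c : ℝ, 0 < c ∧ ∀ x ∈ W, ∀ y ∈ W, Inc G e B c x y) :
    ∃ ε₀ : ℝ, 0 < ε₀ ∧ ∃ c : ℝ, 0 < c ∧ ∀ x ∈ K, ∀ y, dist x y ≤ ε₀ → Inc G e B c x y := by
  refine hK.induction_on (p := fun S => ∃ ε₀ : ℝ, 0 < ε₀ ∧ ∃ c : ℝ, 0 < c ∧
    ∀ x ∈ S, ∀ y, dist x y ≤ ε₀ → Inc G e B c x y) ?_ ?_ ?_ ?_
  · exact ⟨1, one_pos, 1, one_pos, fun x hx => absurd hx (Set.notMem_empty x)⟩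
  · rintro S T hST ⟨ε, hε, c, hc, h1⟩
    exact ⟨ε, hε, c, hc, fun x hx => h1 x (hST hx)⟩
  · rintro S T ⟨ε, hε, c, hc, h1⟩ ⟨ε', hε', c', hc', h2⟩
    refine ⟨min ε ε', lt_min hε hε', min c c', lt_min hc hc', ?_⟩
    rintro x (hx | hx) y hxy
    · exact le_trans (mul_le_mul_of_nonneg_right (min_le_left c c') (by positivity))
        (h1 x hx y (hxy.trans (min_le_left _ _)))
    · exact le_trans (mul_le_mul_of_nonneg_right (min_le_right c c') (by positivity))
        (h2 x hx y (hxy.trans (min_le_right _ _)))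
  · intro x₀ hx₀
    obtain ⟨W, hW, c, hc, h1⟩ := h x₀ hx₀
    obtain ⟨r, hr, hrW⟩ := Metric.mem_nhds_iff.1 hW
    refine ⟨ball x₀ (r / 2), mem_nhdsWithin_of_mem_nhds (ball_mem_nhds x₀ (by linarith)),
      r / 4, by linarith, c, hc, ?_⟩
    intro x hx y hxy
    rw [mem_ball] at hx
    refine h1 x (hrW ?_) y (hrW ?_)
    · rw [mem_ball]
      linarith
    · rw [mem_ball]
      have h2 := dist_triangle y x x₀
      rw [dist_comm y x] at h2
      linarith

theorem qf_le (e : X → E) (B : X → E →L[ℝ] E →L[ℝ] ℝ) (C : ℝ) (hC : ∀ x, ‖B x‖ ≤ C) (x y : X) :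
    |qf e B x y| ≤ C * ‖e y - e x‖ ^ 2 := by
  have h1 := (B x).le_opNorm₂ (e y - e x) (e y - e x)
  rw [Real.norm_eq_abs] at h1
  calc |qf e B x y| ≤ ‖B x‖ * ‖e y - e x‖ * ‖e y - e x‖ := h1
    _ = ‖B x‖ * ‖e y - e x‖ ^ 2 := by ring
    _ ≤ C * ‖e y - e x‖ ^ 2 := mul_le_mul_of_nonneg_right (hC x) (by positivity)

/-- a bounded sequence whose increments control it is nonpositive -/
theorem seq_le (k : ℕ) (A s : ℕ → ℝ) (c C M : ℝ) (hc : 0 < c) (hs : ∀ i, 0 ≤ s i)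
    (h1 : ∀ i, c * s (i + k) ≤ A (i + 1) - A i) (h2 : ∀ i, |A i| ≤ C * s i) (h3 : ∀ i, A i ≤ M) (i : ℕ) :
    A i ≤ 0 := by
  have hmono : Monotone A := monotone_nat_of_le_succ fun i => by
    have := h1 i
    have := mul_nonneg hc.le (hs (i + k))
    linarith
  have hbdd : BddAbove (range A) := ⟨M, by rintro _ ⟨j, rfl⟩; exact h3 j⟩
  have hL := tendsto_atTop_ciSup hmono hbdd
  have hL' : Tendsto (fun i => A (i + 1)) atTop (𝓝 (⨆ i, A i)) := (tendsto_add_atTop_iff_nat 1).2 hL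
  have hd : Tendsto (fun i => A (i + 1) - A i) atTop (𝓝 0) := by
    have := hL'.sub hL
    rwa [sub_self] at this
  have hs0 : Tendsto s atTop (𝓝 0) := by
    have h4 : Tendsto (fun i => (A (i + 1) - A i) / c) atTop (𝓝 0) := by
      have := hd.div_const c
      rwa [zero_div] at this
    rw [← tendsto_add_atTop_iff_nat k]
    refine squeeze_zero (fun i => hs (i + k)) (fun i => ?_) h4
    rw [le_div_iff₀ hc, mul_comm]
    exact h1 i
  have hA0 : Tendsto A atTop (𝓝 0) := by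
    have h5 : Tendsto (fun i => C * s i) atTop (𝓝 0) := by
      have := hs0.const_mul C
      rwa [mul_zero] at this
    exact squeeze_zero_norm (fun i => by rw [Real.norm_eq_abs]; exact h2 i) h5
  exact hmono.ge_of_tendsto hA0 i

end gen

open Pool.Agent.H247.SD

theorem main : S_EX.{u} := by
  intro X _ _ G d e he hinj B hB K hK hG hG' hW
  obtain ⟨ε₀, hε₀, c, hc, hU⟩ := exists_unif (G : X → X) e B K hK.isCompact hW
  obtain ⟨C, hC⟩ : ∃ C, ∀ x, ‖B x‖ ≤ C := by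
    exact exists_bd B hB
  obtain ⟨D, hD⟩ : ∃ D, ∀ x, ‖e x‖ ≤ D := by
    have hen : Continuous fun x => ‖e x‖ := continuous_norm.comp he
    obtain ⟨D, hD⟩ := (isCompact_range hen).bddAbove
    exact ⟨D, fun x => hD ⟨x, rfl⟩⟩
  refine ⟨ε₀, hε₀, fun x hx y hxy => ?_⟩
  have hC0 : 0 ≤ C := (norm_nonneg (B x)).trans (hC x)
  have hbd : ∀ u v : X, |qf e B u v| ≤ C * (D + D) ^ 2 := by
    intro u v
    refine (qf_le e B C hC u v).trans ?_
    have h1 : ‖e v - e u‖ ≤ D + D := (norm_sub_le _ _).trans (add_le_add (hD v) (hD u))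
    exact mul_le_mul_of_nonneg_left (pow_le_pow_left₀ (norm_nonneg _) h1 2) hC0
  -- forward
  have hxK : ∀ i : ℕ, G^[i] x ∈ K := by
    intro i
    induction i with
    | zero => exact hx
    | succ i ih =>
      rw [Function.iterate_succ_apply']
      exact hG _ ih
  have hxK' : ∀ i : ℕ, G.symm^[i] x ∈ K := by
    intro i
    induction i with
    | zero => exact hx
    | succ i ih =>
      rw [Function.iterate_succ_apply']
      exact hG' _ ih
  have hinc : ∀ i : ℕ, Inc (G : X → X) e B c (G^[i] x) (G^[i] y) := fun i =>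
    hU _ (hxK i) _ (hxy i).1
  have hinc' : ∀ i : ℕ, Inc (G : X → X) e B c (G.symm^[i] x) (G.symm^[i] y) := fun i =>
    hU _ (hxK' i) _ (hxy i).2
  have hfor : ∀ i, qf e B (G^[i] x) (G^[i] y) ≤ 0 := by
    refine seq_le 0 (fun i => qf e B (G^[i] x) (G^[i] y))
      (fun i => ‖e (G^[i] y) - e (G^[i] x)‖ ^ 2) c C (C * (D + D) ^ 2) hc (fun i => by positivity)
      ?_ (fun i => qf_le e B C hC _ _) (fun i => (le_abs_self _).trans (hbd _ _))
    intro i
    show c * ‖e (G^[i + 0] y) - e (G^[i + 0] x)‖ ^ 2 ≤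
      qf e B (G^[i + 1] x) (G^[i + 1] y) - qf e B (G^[i] x) (G^[i] y)
    rw [Function.iterate_succ_apply', Function.iterate_succ_apply', add_zero]
    exact hinc i
  have hback : ∀ i, - qf e B (G.symm^[i] x) (G.symm^[i] y) ≤ 0 := by
    refine seq_le 1 (fun i => - qf e B (G.symm^[i] x) (G.symm^[i] y))
      (fun i => ‖e (G.symm^[i] y) - e (G.symm^[i] x)‖ ^ 2) c C (C * (D + D) ^ 2) hc
      (fun i => by positivity) ?_ (fun i => by
        rw [abs_neg]
        exact qf_le e B C hC _ _) (fun i => (neg_le_abs _).trans (hbd _ _))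
    intro i
    have h1 : c * ‖e (G.symm^[i + 1] y) - e (G.symm^[i + 1] x)‖ ^ 2 ≤
      qf e B (G (G.symm^[i + 1] x)) (G (G.symm^[i + 1] y)) -
        qf e B (G.symm^[i + 1] x) (G.symm^[i + 1] y) := hinc' (i + 1)
    have h2 : ∀ u : X, G (G.symm^[i + 1] u) = G.symm^[i] u := by
      intro u
      rw [Function.iterate_succ_apply', Homeomorph.apply_symm_apply]
    rw [h2, h2] at h1
    show c * ‖e (G.symm^[i + 1] y) - e (G.symm^[i + 1] x)‖ ^ 2 ≤
      - qf e B (G.symm^[i + 1] x) (G.symm^[i + 1] y) - - qf e B (G.symm^[i] x) (G.symm^[i] y)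
    linarith
  have h0 : c * ‖e y - e x‖ ^ 2 ≤ qf e B (G x) (G y) - qf e B x y := hinc 0
  have h1 : qf e B (G x) (G y) ≤ 0 := hfor 1
  have h2 : - qf e B x y ≤ 0 := hback 0
  have h3 : c * ‖e y - e x‖ ^ 2 ≤ 0 := by linarith
  have h4 : ‖e y - e x‖ ^ 2 ≤ 0 := by
    by_contra hcon
    push Not at hcon
    have := mul_pos hc hcon
    linarith
  have h5 : ‖e y - e x‖ = 0 := by
    have := le_antisymm h4 (by positivity)
    exact pow_eq_zero_iff two_ne_zero |>.1 this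
  exact (hinj (sub_eq_zero.1 (norm_eq_zero.1 h5))).symm

end Pool.Agent.H370.SD
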